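import Mathlib

/-!
# Indeque sets in triangular grids

Every triangular grid `T_n` has an indeque set with at least `3/7` of its vertices, so the
indeque density is not `2/5`.  The set consists of the vertices `(i, j)` for which `i - 2 j`
lies in a translate of `{0, 1, 3}` modulo `7`; it induces disjoint triangles.
-/

set_option autoImplicit false

namespace Pool.Agent.Results.MP_d2ef9c_co.IndequeDensity

open Finset

/-- The vertices of the triangular grid `T_n`. -/
def Vert (n : ℕ) : Type := {p : ℤ × ℤ // 0 ≤ p.1 ∧ 0 ≤ p.2 ∧ p.1 + p.2 ≤ n}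

/-- Adjacency in the triangular lattice. -/
def TriAdj (p q : ℤ × ℤ) : Prop :=
  (p.2 = q.2 ∧ (p.1 - q.1 = 1 ∨ p.1 - q.1 = -1)) ∨
  (p.1 = q.1 ∧ (p.2 - q.2 = 1 ∨ p.2 - q.2 = -1)) ∨
  (p.1 - q.1 = q.2 - p.2 ∧ (p.1 - q.1 = 1 ∨ p.1 - q.1 = -1))

/-- The triangular grid `T_n`. -/
def triGrid (n : ℕ) : SimpleGraph (Vert n) where
  Adj u v := TriAdj u.1 v.1
  symm := ⟨by
    intro u v h
    unfold TriAdj at *
    omega⟩
  loopless := ⟨by
    intro u h
    unfold TriAdj at h
    omega⟩

/-- `S` is an indeque set of `G`: every connected component of `G[S]` is complete, that is,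
any two vertices joined by a walk of `G[S]` are equal or adjacent. -/
def IsIndeque {V : Type} (G : SimpleGraph V) (S : Set V) : Prop :=
  ∀ u v : S, (G.induce S).Reachable u v → u = v ∨ G.Adj u.1 v.1

/-- The indeque number: the largest size of an indeque set. -/
noncomputable def indequeNumber {V : Type} (G : SimpleGraph V) : ℕ :=
  sSup {k : ℕ | ∃ S : Set V, IsIndeque G S ∧ S.ncard = k}

/-! ### The pattern -/

/-- the residues of the pattern -/
def InPat (t : ℤ) (p : ℤ × ℤ) : Prop :=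
  (p.1 - 2 * p.2 - t) % 7 = 0 ∨ (p.1 - 2 * p.2 - t) % 7 = 1 ∨ (p.1 - 2 * p.2 - t) % 7 = 3

instance (t : ℤ) (p : ℤ × ℤ) : Decidable (InPat t p) := by
  unfold InPat; infer_instance

/-- the base point of the triangle of a vertex of the pattern -/
def base (t : ℤ) (p : ℤ × ℤ) : ℤ × ℤ :=
  if (p.1 - 2 * p.2 - t) % 7 = 0 then p
  else if (p.1 - 2 * p.2 - t) % 7 = 1 then (p.1 - 1, p.2) else (p.1 - 1, p.2 + 1)

theorem base_eq_of_adj {t : ℤ} {p q : ℤ × ℤ} (hp : InPat t p) (hq : InPat t q)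
    (h : TriAdj p q) : base t p = base t q := by
  obtain ⟨a, b⟩ := p
  obtain ⟨c, d⟩ := q
  unfold InPat at hp hq
  unfold TriAdj at h
  unfold base
  simp only at hp hq h ⊢
  split_ifs <;> simp only [Prod.mk.injEq] <;> omega

theorem adj_of_base_eq {t : ℤ} {p q : ℤ × ℤ} (hp : InPat t p) (hq : InPat t q)
    (h : base t p = base t q) : p = q ∨ TriAdj p q := by
  obtain ⟨a, b⟩ := p
  obtain ⟨c, d⟩ := q
  unfold InPat at hp hq
  unfold base at h
  unfold TriAdj
  simp only at hp hq h ⊢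
  split_ifs at h <;> simp only [Prod.mk.injEq] at h ⊢ <;> omega

theorem isIndeque_pattern (n : ℕ) (t : ℤ) :
    IsIndeque (triGrid n) {v | InPat t v.1} := by
  intro u v h
  have hb : ∀ u v : {v : Vert n | InPat t v.1},
      ((triGrid n).induce {v : Vert n | InPat t v.1}).Reachable u v →
      base t u.1.1 = base t v.1.1 := by
    rintro u v ⟨w⟩
    induction w with
    | nil => rfl
    | @cons x y z hxy _ ih =>
      have h1 : TriAdj x.1.1 y.1.1 := hxy
      rw [base_eq_of_adj x.2 y.2 h1]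
      exact ih
  rcases adj_of_base_eq u.2 v.2 (hb u v h) with h1 | h1
  · exact Or.inl (Subtype.ext (Subtype.ext h1))
  · exact Or.inr h1

theorem finite_vert (n : ℕ) : Finite (Vert n) := by
  have h : Set.Finite {p : ℤ × ℤ | 0 ≤ p.1 ∧ 0 ≤ p.2 ∧ p.1 + p.2 ≤ n} := by
    apply Set.Finite.subset (Set.finite_Icc ((0, 0) : ℤ × ℤ) ((n : ℤ), (n : ℤ)))
    rintro ⟨a, b⟩ ⟨h1, h2, h3⟩
    simp only at h1 h2 h3
    rw [Set.mem_Icc, Prod.mk_le_mk, Prod.mk_le_mk]
    omega
  exact h.to_subtype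

theorem count (x : ℤ) : ((range 7).filter (fun t : ℕ =>
    (x - t) % 7 = 0 ∨ (x - t) % 7 = 1 ∨ (x - t) % 7 = 3)).card = 3 := by
  have h1 : ∀ t : ℕ, (x - t) % 7 = (x % 7 - t) % 7 := fun t => by omega
  simp only [h1]
  have h2 : 0 ≤ x % 7 := Int.emod_nonneg _ (by norm_num)
  have h3 : x % 7 < 7 := Int.emod_lt_of_pos _ (by norm_num)
  generalize x % 7 = r at h2 h3
  interval_cases r <;> decide

theorem exists_shift (n : ℕ) : ∃ t : ℤ, 3 * Nat.card (Vert n) ≤ 7 *
    ({v | InPat t v.1} : Set (Vert n)).ncard := by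
  classical
  have := finite_vert n
  have := Fintype.ofFinite (Vert n)
  by_contra hcon
  push Not at hcon
  have h1 : ∑ t ∈ range 7, (univ.filter (fun v : Vert n => InPat (t : ℤ) v.1)).card =
      3 * Fintype.card (Vert n) := by
    have h2 : ∀ t ∈ range 7, (univ.filter (fun v : Vert n => InPat (t : ℤ) v.1)).card =
        ∑ v : Vert n, if InPat (t : ℤ) v.1 then 1 else 0 := by
      intro t _
      rw [card_filter]
    rw [sum_congr rfl h2, sum_comm]
    have h3 : ∀ v ∈ (univ : Finset (Vert n)),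
        ∑ t ∈ range 7, (if InPat (t : ℤ) v.1 then 1 else 0) = 3 := by
      intro v _
      rw [← card_filter]
      exact count (v.1.1 - 2 * v.1.2)
    rw [sum_congr rfl h3, sum_const, card_univ, smul_eq_mul, mul_comm]
  have h4 : ∀ t ∈ range 7, 7 * (univ.filter (fun v : Vert n => InPat (t : ℤ) v.1)).card <
      3 * Fintype.card (Vert n) := by
    intro t _
    have h5 := hcon t
    rw [Nat.card_eq_fintype_card] at h5
    have h6 : ({v | InPat (t : ℤ) v.1} : Set (Vert n)).ncard =
        (univ.filter (fun v : Vert n => InPat (t : ℤ) v.1)).card := by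
      rw [← Set.ncard_coe_finset]
      congr 1
      ext v
      simp
    rw [h6] at h5
    exact h5
  have h7 : ∑ t ∈ range 7, 7 * (univ.filter (fun v : Vert n => InPat (t : ℤ) v.1)).card <
      ∑ t ∈ range 7, 3 * Fintype.card (Vert n) :=
    sum_lt_sum_of_nonempty ⟨0, by simp⟩ h4
  rw [← mul_sum, h1, sum_const, card_range, smul_eq_mul] at h7
  omega

theorem le_indequeNumber {n : ℕ} {S : Set (Vert n)} (hS : IsIndeque (triGrid n) S) :
    S.ncard ≤ indequeNumber (triGrid n) := by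
  have := finite_vert n
  apply le_csSup
  · refine ⟨Nat.card (Vert n), ?_⟩
    rintro k ⟨T, _, rfl⟩
    rw [← Set.ncard_univ]
    exact Set.ncard_le_ncard (Set.subset_univ _) Set.finite_univ
  · exact ⟨S, hS, rfl⟩

/-- The negated form of the question: there is `ε > 0` such that `αω(T_n) ≥ (2/5 + ε) |T_n|` for
all `n` (the proof gives `2/5 + ε = 3/7`). -/
theorem result : ∃ ε : ℝ, 0 < ε ∧ ∀ n : ℕ,
    (2 / 5 + ε) * (Nat.card (Vert n) : ℝ) ≤ (indequeNumber (triGrid n) : ℝ) := by
  refine ⟨1 / 35, by norm_num, fun n => ?_⟩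
  obtain ⟨t, ht⟩ := exists_shift n
  have h1 := le_indequeNumber (isIndeque_pattern n t)
  have h2 : (3 : ℝ) * (Nat.card (Vert n) : ℝ) ≤ 7 * (indequeNumber (triGrid n) : ℝ) := by
    have h3 : 3 * Nat.card (Vert n) ≤ 7 * indequeNumber (triGrid n) :=
      ht.trans (Nat.mul_le_mul_left 7 h1)
    exact_mod_cast h3
  linarith

end Pool.Agent.Results.MP_d2ef9c_co.IndequeDensity
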